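import Mathlib
import Pool.Agent.W172.SP.Final

/-!
# Small split primes in imaginary quadratic fields: all but `O(X^(1/2+ε))` discriminants

Outside a set of at most `O(X^(1/2+ε))` of the negative fundamental discriminants `d` with
`|d| ≤ X`, the number of primes below `(log |d|)² (log log |d|)²` that split in `ℚ(√d)` is
asymptotically half of the number of all primes below that bound.
-/

set_option autoImplicit false

namespace Pool.Agent.Results.MP_aaa0df_nt.AlmostAll

/-- `d` is a negative fundamental discriminant, the discriminant of an imaginary quadratic field. -/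
def IsNegFundDisc (d : ℤ) : Prop :=
  d < 0 ∧ ((d % 4 = 1 ∧ Squarefree d) ∨
    ∃ m : ℤ, d = 4 * m ∧ (m % 4 = 2 ∨ m % 4 = 3) ∧ Squarefree m)

/-- `N(d)`: the number of primes `p < (log |d|)² (log log |d|)²` that split in `ℚ(√d)`, that is,
`p` does not divide `d` and `d` is a square modulo `4 p`. -/
noncomputable def splitCount (d : ℤ) : ℕ :=
  Set.ncard {p : ℕ | p.Prime ∧
    ((p : ℝ) < Real.log (|(d : ℝ)|) ^ 2 * Real.log (Real.log (|(d : ℝ)|)) ^ 2) ∧
    ¬ ((p : ℤ) ∣ d) ∧ ∃ x : ℤ, (4 * (p : ℤ)) ∣ x ^ 2 - d}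

/-- The number of all primes `p < (log |d|)² (log log |d|)²`. -/
noncomputable def primeCount (d : ℤ) : ℕ :=
  Set.ncard {p : ℕ | p.Prime ∧
    ((p : ℝ) < Real.log (|(d : ℝ)|) ^ 2 * Real.log (Real.log (|(d : ℝ)|)) ^ 2)}

/-- For all `ε, δ > 0` there is `C` such that for every `X ≥ 1` at most `C X^(1/2+ε)` negative
fundamental discriminants `d` with `|d| ≤ X` fail
`|N(d) - π(d) / 2| ≤ δ π(d)`, where `π(d)` is the number of primes below
`(log |d|)² (log log |d|)²`. -/
theorem result (ε δ : ℝ) (hε : 0 < ε) (hδ : 0 < δ) : ∃ C : ℝ, ∀ X : ℕ, 1 ≤ X →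
    (Set.ncard {d : ℤ | IsNegFundDisc d ∧ |d| ≤ (X : ℤ) ∧
      δ * (primeCount d : ℝ) < |(splitCount d : ℝ) - (primeCount d : ℝ) / 2|} : ℝ) ≤
      C * (X : ℝ) ^ (1 / 2 + ε) :=
  Pool.Agent.W172.SP.main ε δ hε hδ

end Pool.Agent.Results.MP_aaa0df_nt.AlmostAll
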